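import Mathlib
import Pool.Agent.Y205.TF.Red

set_option autoImplicit false

/-!
# Tight union-closed families and dominating sets

Let `A` be a finite nonempty union-closed family in which no element lies in more than half of the
members (for instance a tight family, in which the most frequent element lies in exactly half of
them). A set `T` dominates `A` if for every element `x` of a member some `t ∈ T` lies in all members
containing `x`; the smallest dominating sets consist of one representative for each class of
undominated elements.

1. If `A` has a dominating set of at most six elements, then `|A|` is a power of `2`.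
2. If `T` is a minimal dominating set, and if every member contains at most two, or at least half, of
   the elements of `T`, then `|A| = 2 ^ |T|`.
3. For every dominating set `T` with `k` elements, `|A| ≤ 2 ^ (k (k + 1))`.
-/

namespace Pool.Agent.Results.MP_163ab5_co.FewUndominated

open Finset

/-- `T` dominates `A`: for every element `x` of a member of `A` some `t ∈ T` lies in all members
containing `x`. -/
def Dominates {α : Type*} (T : Finset α) (A : Finset (Finset α)) : Prop :=
  ∀ X ∈ A, ∀ x ∈ X, ∃ t ∈ T, ∀ Y ∈ A, x ∈ Y → t ∈ Y

/-- **Main result.** -/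
theorem result {α : Type*} [DecidableEq α] (A : Finset (Finset α)) (hne : A.Nonempty)
    (hU : ∀ X ∈ A, ∀ Y ∈ A, X ∪ Y ∈ A)
    (hle : ∀ x : α, 2 * (A.filter (fun S => x ∈ S)).card ≤ A.card)
    (T : Finset α) (hT : Dominates T A) :
    (T.card ≤ 6 → ∃ k ≤ T.card, A.card = 2 ^ k) ∧
    ((∀ t ∈ T, ¬ Dominates (T.erase t) A) →
      (∀ S ∈ A, (S ∩ T).card ≤ 2 ∨ T.card ≤ 2 * (S ∩ T).card) → A.card = 2 ^ T.card) ∧
    A.card ≤ 2 ^ (T.card * (T.card + 1)) := by
  refine ⟨fun h6 => ?_, fun hmin hcl => ?_, ?_⟩
  · obtain ⟨T₀, h1, h2⟩ := Pool.Agent.Y205.TF.tight_six A hne hU hle T hT h6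
    exact ⟨T₀.card, card_le_card h1, h2⟩
  · exact Pool.Agent.Y205.TF.tight_min A hne hU hle T hT hmin hcl
  · exact Pool.Agent.Y205.TF.tight_any A hU hle T hT

end Pool.Agent.Results.MP_163ab5_co.FewUndominated
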