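import Mathlib
import Pool.Agent.Y205.TF.Red2

set_option autoImplicit false

/-!
# Tight union-closed families in which light incomparable members have heavy unions

Let `A` be a finite nonempty union-closed family in which no element lies in more than half of the
members (for instance a tight family), and let `T` be a minimal dominating set: for every element `x`
of a member some `t ∈ T` lies in all members containing `x`, and no `T \ {t}` has this property (`T`
consists of one representative for each class of undominated elements).

Let `w ≥ 0` be weights on `T` with sum `M`, such that either `M > 0` and every weight is at most `M/4`,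
or all the weights are `1`. If for any two members `X`, `Y`, neither containing the other, for which
`T \ X` and `T \ Y` both have weight more than `M/2`, the set `T \ (X ∪ Y)` has at most one element or
weight at most `M/4`, then `A` has exactly `2 ^ |T|` members.

In particular this holds if the union of any two incomparable members is the largest member or the
largest member avoiding some element.
-/

namespace Pool.Agent.Results.MP_163ab5_co.HeavyUnions

open Finset

/-- `T` dominates `A`: for every element `x` of a member of `A` some `t ∈ T` lies in all members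
containing `x`. -/
def Dominates {α : Type*} (T : Finset α) (A : Finset (Finset α)) : Prop :=
  ∀ X ∈ A, ∀ x ∈ X, ∃ t ∈ T, ∀ Y ∈ A, x ∈ Y → t ∈ Y

/-- **Main result.** -/
theorem result {α : Type*} [DecidableEq α] (A : Finset (Finset α)) (hne : A.Nonempty)
    (hU : ∀ X ∈ A, ∀ Y ∈ A, X ∪ Y ∈ A)
    (hle : ∀ x : α, 2 * (A.filter (fun S => x ∈ S)).card ≤ A.card)
    (T : Finset α) (hT : Dominates T A) (hmin : ∀ t ∈ T, ¬ Dominates (T.erase t) A)
    (w : α → ℝ) (hw : ∀ i ∈ T, 0 ≤ w i)
    (hc : (0 < ∑ i ∈ T, w i ∧ ∀ i ∈ T, 4 * w i ≤ ∑ i ∈ T, w i) ∨ ∀ i ∈ T, w i = 1)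
    (hI : ∀ X ∈ A, ∀ Y ∈ A, ¬ X ⊆ Y → ¬ Y ⊆ X →
      ∑ i ∈ T, w i < 2 * ∑ i ∈ T \ X, w i →
      ∑ i ∈ T, w i < 2 * ∑ i ∈ T \ Y, w i →
      (T \ (X ∪ Y)).card ≤ 1 ∨ 4 * ∑ i ∈ T \ (X ∪ Y), w i ≤ ∑ i ∈ T, w i) :
    A.card = 2 ^ T.card :=
  Pool.Agent.Y205.TF.tight_weights A hne hU hle T hT hmin w hw hc hI

end Pool.Agent.Results.MP_163ab5_co.HeavyUnions
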