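import Mathlib
import Pool.Agent.Y396.Frankl.StrictFinal

set_option autoImplicit false

/-!
# Tight union-closed families of complements of subrings and subalgebras

Let `A` be the family of the complements of the subrings of a finite ring, of the unital subrings of a
finite ring with unity, of the subalgebras of a finite algebra, or of the unital subalgebras of a
finite unital algebra. `A` is union-closed; if no element lies in more than half of the members of `A`
(for instance if `A` is tight), then `A` has one or two members.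
-/

namespace Pool.Agent.Results.MP_163ab5_co.SubalgebraFamilies

universe u v

/-- No element lies in more than half of the members of `A`. -/
def NoneAboveHalf {α : Type*} [DecidableEq α] (A : Finset (Finset α)) : Prop :=
  ∀ x : α, 2 * (A.filter fun X => x ∈ X).card ≤ A.card

theorem key {α : Type*} [DecidableEq α] {A : Finset (Finset α)} (h0 : ∅ ∈ A)
    (hle : NoneAboveHalf A)
    (h : 3 ≤ A.card → ∃ x : α, A.card < 2 * (A.filter fun X => x ∈ X).card) :
    A.card = 1 ∨ A.card = 2 := by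
  have h2 : 0 < A.card := Finset.card_pos.2 ⟨∅, h0⟩
  by_contra hcon
  obtain ⟨x, hx⟩ := h (by omega)
  have := hle x
  omega

/-- **Main result.** -/
theorem result :
    -- complements of the subrings of a finite ring
    (∀ (R : Type u) [NonUnitalRing R] [Fintype R] [DecidableEq R] (A : Finset (Finset R)),
      (∀ X : Finset R, X ∈ A ↔
        0 ∉ X ∧ ∀ a b : R, a ∉ X → b ∉ X → a - b ∉ X ∧ a * b ∉ X) →
      (∀ X ∈ A, ∀ Y ∈ A, X ∪ Y ∈ A) ∧ (NoneAboveHalf A → A.card = 1 ∨ A.card = 2)) ∧
    -- complements of the unital subrings of a finite ring with unity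
    (∀ (R : Type u) [Ring R] [Fintype R] [DecidableEq R] (A : Finset (Finset R)),
      (∀ X : Finset R, X ∈ A ↔
        1 ∉ X ∧ ∀ a b : R, a ∉ X → b ∉ X → a - b ∉ X ∧ a * b ∉ X) →
      (∀ X ∈ A, ∀ Y ∈ A, X ∪ Y ∈ A) ∧ (NoneAboveHalf A → A.card = 1 ∨ A.card = 2)) ∧
    -- complements of the subalgebras of a finite algebra
    (∀ (S : Type v) [CommRing S] (R : Type u) [NonUnitalRing R] [Module S R]
      [IsScalarTower S R R] [SMulCommClass S R R] [Fintype R] [DecidableEq R]
      (A : Finset (Finset R)),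
      (∀ X : Finset R, X ∈ A ↔ ∃ H : NonUnitalSubalgebra S R, ∀ x, x ∈ X ↔ x ∉ H) →
      (∀ X ∈ A, ∀ Y ∈ A, X ∪ Y ∈ A) ∧ (NoneAboveHalf A → A.card = 1 ∨ A.card = 2)) ∧
    -- complements of the unital subalgebras of a finite unital algebra
    (∀ (S : Type v) [CommRing S] (R : Type u) [Ring R] [Algebra S R] [Fintype R] [DecidableEq R]
      (A : Finset (Finset R)),
      (∀ X : Finset R, X ∈ A ↔ ∃ H : Subalgebra S R, ∀ x, x ∈ X ↔ x ∉ H) →
      (∀ X ∈ A, ∀ Y ∈ A, X ∪ Y ∈ A) ∧ (NoneAboveHalf A → A.card = 1 ∨ A.card = 2)) := by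
  refine ⟨?_, ?_, ?_, ?_⟩
  · intro R _ _ _ A hA
    obtain ⟨h1, h2⟩ := Pool.Agent.Y396.Frankl.strict_ring_family A hA
    refine ⟨h1, fun hle => key ((hA ∅).2 ⟨Finset.notMem_empty _, fun a b _ _ =>
      ⟨Finset.notMem_empty _, Finset.notMem_empty _⟩⟩) hle h2⟩
  · intro R _ _ _ A hA
    obtain ⟨h1, h2⟩ := Pool.Agent.Y396.Frankl.strict_unital_ring_family A hA
    refine ⟨h1, fun hle => key ((hA ∅).2 ⟨Finset.notMem_empty _, fun a b _ _ =>
      ⟨Finset.notMem_empty _, Finset.notMem_empty _⟩⟩) hle h2⟩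
  · intro S _ R _ _ _ _ _ _ A hA
    obtain ⟨h1, h2⟩ := Pool.Agent.Y396.Frankl.strict_alg_family S A hA
    refine ⟨h1, fun hle => key ((hA ∅).2 ⟨⊤, fun x =>
      ⟨fun h => absurd h (Finset.notMem_empty x), fun h => absurd trivial h⟩⟩) hle h2⟩
  · intro S _ R _ _ _ _ A hA
    obtain ⟨h1, h2⟩ := Pool.Agent.Y396.Frankl.strict_unital_family S A hA
    refine ⟨h1, fun hle => key ((hA ∅).2 ⟨⊤, fun x =>
      ⟨fun h => absurd h (Finset.notMem_empty x), fun h => absurd trivial h⟩⟩) hle h2⟩

end Pool.Agent.Results.MP_163ab5_co.SubalgebraFamilies
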