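import Mathlib
import Pool.Agent.Y396.Frankl.Final

set_option autoImplicit false

/-!
# Tight union-closed families of complements of subsemigroups

Let `S` be a finite semigroup, every group in which is solvable or has a nontrivial quotient generated
by two elements, and let `A` be the family of the complements of the subsemigroups of `S` (the empty
one included). If no element lies in more than half of the members of `A` (for instance if `A` is
tight), then `A` is the power set of `S`; in particular `|A| = 2 ^ |S|`.
-/

namespace Pool.Agent.Results.MP_163ab5_co.SubsemigroupFamilies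

universe u

/-- `G` is solvable or has a nontrivial quotient that is generated by two elements: there are a
normal subgroup `N` and elements `a, b` outside `N` such that `a`, `b` and `N` generate `G`. -/
def SolvableOrTwoGenerated (G : Type u) [Group G] : Prop :=
  Group.IsSolvable G ∨ ∃ N : Subgroup G, N.Normal ∧ ∃ a b : G, a ∉ N ∧ b ∉ N ∧
    Subgroup.closure (insert a (insert b (N : Set G))) = ⊤

theorem result (S : Type u) [Semigroup S] [Fintype S] [DecidableEq S]
    (hG : ∀ (G : Type u) [Group G] (φ : G →ₙ* S), Function.Injective φ → SolvableOrTwoGenerated G)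
    (A : Finset (Finset S))
    (hA : ∀ X : Finset S, X ∈ A ↔ ∀ a b : S, a ∉ X → b ∉ X → a * b ∉ X) :
    (∀ X ∈ A, ∀ Y ∈ A, X ∪ Y ∈ A) ∧
      ((∀ x : S, 2 * (A.filter fun X => x ∈ X).card ≤ A.card) →
        A = Finset.univ ∧ A.card = 2 ^ Fintype.card S) := by
  refine ⟨Pool.Agent.Y396.Frankl.fam_union A hA, fun hle => ?_⟩
  have h : A = Finset.univ := by
    by_contra hpow
    have hG' : Pool.Agent.Y396.Frankl.GroupCond S :=
      Pool.Agent.Y396.Frankl.groupCond_of fun G _ φ hφ => by
        rcases hG G φ hφ with h | h
        · exact Or.inl h
        · exact Or.inr (Or.inr h)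
    have hne : ∃ a b : S, a * b ≠ a ∧ a * b ≠ b := by
      by_contra hno
      push Not at hno
      apply hpow
      rw [Finset.eq_univ_iff_forall]
      intro X
      rw [hA]
      intro a b ha hb
      by_cases h : a * b = a
      · rw [h]; exact ha
      · rw [hno a b h]; exact hb
    obtain ⟨x, hx⟩ := Pool.Agent.Y396.Frankl.lattice_strict hG' hne
    have h1 := Pool.Agent.Y396.Frankl.fam_card A hA
    have h2 := Pool.Agent.Y396.Frankl.fam_card_filter A hA x
    have h3 := hle x
    rw [h1] at hx
    omega
  refine ⟨h, ?_⟩
  rw [h, Finset.card_univ, Fintype.card_finset]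

end Pool.Agent.Results.MP_163ab5_co.SubsemigroupFamilies
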